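import Mathlib

/-!
# MP_67e79f_co: good graphs of bounded treewidth need arbitrarily many labels

We disprove Q1: there is no function `f` such that every good graph `G` is `f (tw G)`-good.
-/

namespace Pool.Agent.Results.MP_67e79f_co.HubChain

open SimpleGraph

/-! ## Definitions -/

/-- The labels read along the walk `p` are non-decreasing (equal labels allowed). -/
def Increasing {V : Type} {G : SimpleGraph V} (lam : Sym2 V → ℝ) {x y : V} (p : G.Walk x y) :
    Prop :=
  (p.edges.map lam).Pairwise (· ≤ ·)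

/-- `lam` is a good edge-labeling of `G`: for all `x`, `y`, any two increasing paths from `x` to
`y` are equal. (Only the values of `lam` on edges of `G` matter.) -/
def IsGoodLabeling {V : Type} (G : SimpleGraph V) (lam : Sym2 V → ℝ) : Prop :=
  ∀ (x y : V) (p q : G.Walk x y), p.IsPath → q.IsPath →
    Increasing lam p → Increasing lam q → p = q

/-- `G` is good: it has a good edge-labeling. -/
def GoodGraph {V : Type} (G : SimpleGraph V) : Prop :=
  ∃ lam : Sym2 V → ℝ, IsGoodLabeling G lam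

/-- `G` is `c`-good: it has a good edge-labeling with at most `c` distinct values on the edges. -/
def CGood {V : Type} (c : ℕ) (G : SimpleGraph V) : Prop :=
  ∃ lam : Sym2 V → ℝ, IsGoodLabeling G lam ∧ (lam '' G.edgeSet).encard ≤ c

/-- A tree decomposition of `G`, with decomposition tree on the index type `I`. -/
structure TreeDecomp {V : Type} (G : SimpleGraph V) (I : Type) where
  /-- the decomposition tree -/
  tree : SimpleGraph I
  isTree : tree.IsTree
  /-- the bags -/
  bag : I → Set V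
  mem_bag : ∀ v : V, ∃ i, v ∈ bag i
  edge_bag : ∀ u v : V, G.Adj u v → ∃ i, u ∈ bag i ∧ v ∈ bag i
  /-- for every vertex, the nodes whose bags contain it induce a connected subgraph of the tree -/
  connected : ∀ v : V, (tree.induce {i | v ∈ bag i}).Connected

/-- `G` has a (finite) tree decomposition of width at most `k`. -/
def TwLE {V : Type} (G : SimpleGraph V) (k : ℕ) : Prop :=
  ∃ (n : ℕ) (D : TreeDecomp G (Fin n)), ∀ i, (D.bag i).encard ≤ (k + 1 : ℕ)

/-- The treewidth of a finite graph. -/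
noncomputable def treewidth {V : Type} (G : SimpleGraph V) : ℕ := sInf {k : ℕ | TwLE G k}

/-! ## A sufficient condition for goodness -/

section Suff

variable {V : Type} {G : SimpleGraph V}

theorem strict (l : V → V → ℕ) (lam : Sym2 V → ℝ)
    (hlam : ∀ u v, lam s(u, v) = -(l u v : ℝ))
    (proper : ∀ u v w, G.Adj u v → G.Adj v w → u ≠ w → l u v ≠ l v w)
    {u v y : V} (h : G.Adj u v) (q : G.Walk v y) (hp : (Walk.cons h q).IsPath)
    (hinc : Increasing lam (Walk.cons h q)) :
    ∀ e ∈ q.edges, -lam e < (l u v : ℕ) := by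
  unfold Increasing at hinc
  rw [Walk.edges_cons, List.map_cons, List.pairwise_cons] at hinc
  cases q with
  | nil => intro e he; simp at he
  | @cons _ v2 _ h' q' =>
    have hne : u ≠ v2 := by
      intro hh
      have := (Walk.cons_isPath_iff h (Walk.cons h' q')).1 hp
      apply this.2
      rw [Walk.support_cons, hh]
      exact List.mem_cons_of_mem _ (Walk.start_mem_support q')
    have hprop := proper u v v2 h h' hne
    have hle : lam s(u, v) ≤ lam s(v, v2) := by
      apply hinc.1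
      simp
    have hlt1 : l v v2 < l u v := by
      rw [hlam, hlam] at hle
      have : (l v v2 : ℝ) ≤ l u v := by linarith
      have : l v v2 ≤ l u v := by exact_mod_cast this
      omega
    have hlt2 : -lam s(v, v2) < (l u v : ℕ) := by
      rw [hlam]
      have : (l v v2 : ℝ) < l u v := by exact_mod_cast hlt1
      linarith
    intro e he
    rw [Walk.edges_cons, List.mem_cons] at he
    rcases he with rfl | he
    · exact hlt2
    · have h5 := hinc.2
      rw [Walk.edges_cons, List.map_cons, List.pairwise_cons] at h5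
      have := h5.1 (lam e) (List.mem_map_of_mem he)
      linarith

theorem reach (l : V → V → ℕ) (lam : Sym2 V → ℝ)
    (hlam : ∀ u v, lam s(u, v) = -(l u v : ℝ))
    (proper : ∀ u v w, G.Adj u v → G.Adj v w → u ≠ w → l u v ≠ l v w)
    (B : V → ℕ → V → Prop)
    (h1 : ∀ v t, B v t v)
    (h2 : ∀ v s t t', t ≤ t' → B v t s → B v t' s)
    (h3 : ∀ u v s, G.Adj u v → B v (l u v) s → B u (l u v + 1) s)
    {u y : V} (p : G.Walk u y) :
    p.IsPath → Increasing lam p → ∀ t : ℕ, (∀ e ∈ p.edges, -lam e < t) → B u t y := by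
  induction p with
  | nil => intro _ _ t _; exact h1 _ _
  | @cons u v w h q ih =>
    intro hp hinc t ht
    have hlt := strict l lam hlam proper h q hp hinc
    unfold Increasing at hinc
    rw [Walk.edges_cons, List.map_cons, List.pairwise_cons] at hinc
    have hB := ih hp.of_cons hinc.2 (l u v) hlt
    have hB' := h3 u v _ h hB
    refine h2 _ _ _ _ ?_ hB'
    have := ht s(u, v) (by simp)
    rw [hlam] at this
    have : (l u v : ℝ) < t := by linarith
    have : l u v < t := by exact_mod_cast this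
    omega

/-- Two decreasing-in-`l` paths whose first edges have labels `l u v1 < l u v2` cannot both end at
`y`. -/
theorem no_two (l : V → V → ℕ) (lam : Sym2 V → ℝ)
    (hlam : ∀ u v, lam s(u, v) = -(l u v : ℝ))
    (proper : ∀ u v w, G.Adj u v → G.Adj v w → u ≠ w → l u v ≠ l v w)
    (B : V → ℕ → V → Prop)
    (h1 : ∀ v t, B v t v)
    (h2 : ∀ v s t t', t ≤ t' → B v t s → B v t' s)
    (h3 : ∀ u v s, G.Adj u v → B v (l u v) s → B u (l u v + 1) s)
    (h4 : ∀ u v s, G.Adj u v → B u (l u v) s → B v (l u v) s → False)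
    {u v1 v2 y : V} (a1 : G.Adj u v1) (a2 : G.Adj u v2) (q1 : G.Walk v1 y) (q2 : G.Walk v2 y)
    (p1 : (Walk.cons a1 q1).IsPath) (p2 : (Walk.cons a2 q2).IsPath)
    (i1 : Increasing lam (Walk.cons a1 q1)) (i2 : Increasing lam (Walk.cons a2 q2))
    (hlt : l u v1 < l u v2) : False := by
  have s1 := strict l lam hlam proper a1 q1 p1 i1
  have s2 := strict l lam hlam proper a2 q2 p2 i2
  have b1 : B u (l u v2) y := by
    apply reach l lam hlam proper B h1 h2 h3 (Walk.cons a1 q1) p1 i1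
    intro e he
    have hlt' : (l u v1 : ℝ) < l u v2 := by exact_mod_cast hlt
    rw [Walk.edges_cons, List.mem_cons] at he
    rcases he with rfl | he
    · rw [hlam]; linarith
    · have := s1 e he; linarith
  have b2 : B v2 (l u v2) y := by
    apply reach l lam hlam proper B h1 h2 h3 q2 p2.of_cons _ _ s2
    unfold Increasing at i2 ⊢
    rw [Walk.edges_cons, List.map_cons, List.pairwise_cons] at i2
    exact i2.2
  exact h4 u v2 y a2 b1 b2

theorem good_of (l : V → V → ℕ) (lam : Sym2 V → ℝ)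
    (hlam : ∀ u v, lam s(u, v) = -(l u v : ℝ))
    (proper : ∀ u v w, G.Adj u v → G.Adj v w → u ≠ w → l u v ≠ l v w)
    (B : V → ℕ → V → Prop)
    (h1 : ∀ v t, B v t v)
    (h2 : ∀ v s t t', t ≤ t' → B v t s → B v t' s)
    (h3 : ∀ u v s, G.Adj u v → B v (l u v) s → B u (l u v + 1) s)
    (h4 : ∀ u v s, G.Adj u v → B u (l u v) s → B v (l u v) s → False) :
    IsGoodLabeling G lam := by
  intro x y p
  induction p with
  | nil =>
    intro q _ hq _ _
    exact (Walk.isPath_iff_nil.1 hq).eq_nil.symm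
  | @cons u v1 w a1 q1 ih =>
    intro q hp hq i1 i2
    cases q with
    | nil =>
      exact (Walk.isPath_iff_nil.1 hp).eq_nil
    | @cons _ v2 _ a2 q2 =>
      by_cases hv : v1 = v2
      · subst hv
        rw [ih q2 hp.of_cons hq.of_cons]
        · unfold Increasing at i1 ⊢
          rw [Walk.edges_cons, List.map_cons, List.pairwise_cons] at i1
          exact i1.2
        · unfold Increasing at i2 ⊢
          rw [Walk.edges_cons, List.map_cons, List.pairwise_cons] at i2
          exact i2.2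
      · exfalso
        have hsym : l v1 u = l u v1 := by
          have e1 := hlam u v1
          have e2 := hlam v1 u
          rw [Sym2.eq_swap] at e2
          rw [e1] at e2
          have : (l u v1 : ℝ) = l v1 u := by linarith
          exact_mod_cast this.symm
        have hpr := proper v1 u v2 a1.symm a2 hv
        rw [hsym] at hpr
        rcases lt_or_gt_of_ne hpr with hlt | hlt
        · exact no_two l lam hlam proper B h1 h2 h3 h4 a1 a2 q1 q2 hp hq i1 i2 hlt
        · exact no_two l lam hlam proper B h1 h2 h3 h4 a2 a1 q2 q1 hq hp i2 i1 hlt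

end Suff

/-! ## The graph -/

/-- Vertices: a hub `h` and, for each `i < N`, four vertices `x i`, `y i`, `z i`, `w i`. -/
inductive Vt (N : ℕ) : Type
  | h : Vt N
  | x (i : Fin N) : Vt N
  | y (i : Fin N) : Vt N
  | z (i : Fin N) : Vt N
  | w (i : Fin N) : Vt N
  deriving DecidableEq, Fintype

/-- Adjacency: `h x_i`, the 4-cycle `x_i y_i w_i z_i`, and `w_i x_j` for `|i - j| = 1`. -/
def adj (N : ℕ) : Vt N → Vt N → Prop
  | .h, .x _ => True
  | .x _, .h => True
  | .x i, .y j => i.1 = j.1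
  | .y i, .x j => i.1 = j.1
  | .x i, .z j => i.1 = j.1
  | .z i, .x j => i.1 = j.1
  | .w i, .y j => i.1 = j.1
  | .y i, .w j => i.1 = j.1
  | .w i, .z j => i.1 = j.1
  | .z i, .w j => i.1 = j.1
  | .w i, .x j => i.1 + 1 = j.1 ∨ j.1 + 1 = i.1
  | .x i, .w j => i.1 + 1 = j.1 ∨ j.1 + 1 = i.1
  | _, _ => False

/-- The graph. -/
def Gr (N : ℕ) : SimpleGraph (Vt N) where
  Adj := adj N
  symm := ⟨by
    intro u v huv
    cases u <;> cases v <;> simp only [adj] at huv ⊢ <;> omega⟩
  loopless := ⟨by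
    intro u huv
    cases u <;> simp only [adj] at huv⟩

/-- The labels (integers); the real labels are their negatives. -/
def lab (N : ℕ) : Vt N → Vt N → ℕ
  | .h, .x i => i.1 + 2
  | .x i, .h => i.1 + 2
  | .x _, .z _ => N + 3
  | .z _, .x _ => N + 3
  | .w _, .y _ => N + 3
  | .y _, .w _ => N + 3
  | .w i, .x j => if i.1 < j.1 then 1 else N + 2
  | .x j, .w i => if i.1 < j.1 then 1 else N + 2
  | _, _ => 0

theorem lab_comm (N : ℕ) (u v : Vt N) : lab N u v = lab N v u := by
  cases u <;> cases v <;> simp only [lab]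

/-- The real labeling. -/
noncomputable def lamN (N : ℕ) : Sym2 (Vt N) → ℝ :=
  Sym2.lift ⟨fun u v => -(lab N u v : ℝ), by intro u v; simp only [lab_comm N u v]⟩

theorem lamN_apply (N : ℕ) (u v : Vt N) : lamN N s(u, v) = -(lab N u v : ℝ) := rfl

/-- `B v t s`: `s` is among the endpoints of decreasing walks from `v` with labels `< t`. -/
def B (N : ℕ) : Vt N → ℕ → Vt N → Prop
  | .h, _, .h => True
  | .h, t, .x j => j.1 + 2 < t
  | .h, t, .y j => j.1 + 2 < t
  | .h, t, .z j => j.1 + 3 < t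
  | .h, t, .w j => j.1 + 3 < t
  | .x i, t, .h => i.1 + 2 < t
  | .x i, t, .x j => j.1 = i.1 ∨ (i.1 + 2 < t ∧ j.1 ≤ i.1) ∨ (N + 2 < t ∧ j.1 = i.1 + 2)
  | .x i, t, .y j => (j.1 = i.1 ∧ 0 < t) ∨ (i.1 + 2 < t ∧ j.1 ≤ i.1) ∨ (N + 2 < t ∧ j.1 = i.1 + 2)
  | .x i, t, .w j => (j.1 + 1 = i.1 ∧ 1 < t) ∨ (i.1 + 2 < t ∧ j.1 + 1 ≤ i.1) ∨
      (N + 2 < t ∧ j.1 = i.1 + 1) ∨ (N + 3 < t ∧ j.1 = i.1)
  | .x i, t, .z j => (j.1 + 1 = i.1 ∧ 1 < t) ∨ (i.1 + 2 < t ∧ j.1 + 1 ≤ i.1) ∨
      (N + 2 < t ∧ j.1 = i.1 + 1) ∨ (N + 3 < t ∧ j.1 = i.1)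
  | .w _, t, .h => N + 2 < t
  | .w i, t, .x j => (j.1 = i.1 + 1 ∧ 1 < t) ∨ (N + 2 < t ∧ j.1 + 1 ≤ i.1) ∨ (N + 3 < t ∧ j.1 = i.1)
  | .w i, t, .y j => (j.1 = i.1 + 1 ∧ 1 < t) ∨ (N + 2 < t ∧ j.1 + 1 ≤ i.1) ∨ (N + 3 < t ∧ j.1 = i.1)
  | .w i, t, .w j => j.1 = i.1 ∨ (N + 2 < t ∧ j.1 + 2 ≤ i.1)
  | .w i, t, .z j => (j.1 = i.1 ∧ 0 < t) ∨ (N + 2 < t ∧ j.1 + 2 ≤ i.1)
  | .y _, t, .h => N + 3 < t
  | .y i, t, .y j => j.1 = i.1 ∨ (N + 3 < t ∧ (j.1 = i.1 + 1 ∨ j.1 + 1 ≤ i.1))
  | .y i, t, .x j => (j.1 = i.1 ∧ 0 < t) ∨ (N + 3 < t ∧ (j.1 = i.1 + 1 ∨ j.1 + 1 ≤ i.1))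
  | .y i, t, .w j => N + 3 < t ∧ (j.1 = i.1 ∨ j.1 + 2 ≤ i.1)
  | .y i, t, .z j => N + 3 < t ∧ (j.1 = i.1 ∨ j.1 + 2 ≤ i.1)
  | .z _, t, .h => N + 3 < t
  | .z i, t, .z j => j.1 = i.1 ∨ (N + 3 < t ∧ (j.1 + 1 ≤ i.1 ∨ j.1 = i.1 + 1))
  | .z i, t, .w j => (j.1 = i.1 ∧ 0 < t) ∨ (N + 3 < t ∧ (j.1 + 1 ≤ i.1 ∨ j.1 = i.1 + 1))
  | .z i, t, .x j => N + 3 < t ∧ (j.1 ≤ i.1 ∨ j.1 = i.1 + 2)
  | .z i, t, .y j => N + 3 < t ∧ (j.1 ≤ i.1 ∨ j.1 = i.1 + 2)

theorem B_refl (N : ℕ) (v : Vt N) (t : ℕ) : B N v t v := by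
  cases v <;> simp [B]

theorem B_mono (N : ℕ) (v s : Vt N) (t t' : ℕ) (h : t ≤ t') (hB : B N v t s) : B N v t' s := by
  cases v <;> cases s <;> simp only [B] at hB ⊢ <;> omega

theorem B_step (N : ℕ) (u v s : Vt N) (h : (Gr N).Adj u v) (hB : B N v (lab N u v) s) :
    B N u (lab N u v + 1) s := by
  change adj N u v at h
  rcases u with _ | i | i | i | i <;> rcases v with _ | j | j | j | j <;>
    simp only [adj] at h <;> rcases s with _ | k | k | k | k <;>
    simp only [lab, B] at hB ⊢ <;> (try split_ifs at hB ⊢) <;>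
    (first | trivial | (have := i.2; have := j.2; omega) | (have := i.2; omega) |
      (have := j.2; omega))

theorem B_disj (N : ℕ) (u v s : Vt N) (h : (Gr N).Adj u v) (hB : B N u (lab N u v) s)
    (hB' : B N v (lab N u v) s) : False := by
  change adj N u v at h
  rcases u with _ | i | i | i | i <;> rcases v with _ | j | j | j | j <;>
    simp only [adj] at h <;> rcases s with _ | k | k | k | k <;>
    simp only [lab, B] at hB hB' <;> (try split_ifs at hB hB') <;>
    (first | trivial | (have := i.2; have := j.2; have := k.2; omega) |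
      (have := i.2; have := j.2; omega) | (have := i.2; have := k.2; omega) | (have := i.2; omega) |
      (have := j.2; have := k.2; omega) | (have := j.2; omega))

theorem proper (N : ℕ) (u v w : Vt N) (h : (Gr N).Adj u v) (h' : (Gr N).Adj v w) (hne : u ≠ w) :
    lab N u v ≠ lab N v w := by
  change adj N u v at h
  change adj N v w at h'
  rcases u with _ | i | i | i | i <;> rcases v with _ | j | j | j | j <;>
    simp only [adj] at h <;> rcases w with _ | k | k | k | k <;>
    simp only [adj] at h' <;>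
    simp only [lab, ne_eq, Vt.x.injEq, Vt.y.injEq, Vt.z.injEq, Vt.w.injEq, Fin.ext_iff,
      not_true_eq_false] at hne ⊢ <;>
    (try split_ifs) <;>
    (first | trivial | (have := i.2; have := j.2; have := k.2; omega) |
      (have := i.2; have := j.2; omega) | (have := i.2; have := k.2; omega) |
      (have := j.2; have := k.2; omega))

theorem good (N : ℕ) : IsGoodLabeling (Gr N) (lamN N) :=
  good_of (lab N) (lamN N) (lamN_apply N) (proper N) (B N) (B_refl N) (B_mono N) (B_step N)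
    (B_disj N)

/-! ## The gadget -/

section Gadget

variable {V : Type} {G : SimpleGraph V} {lam : Sym2 V → ℝ}

theorem no22 (hg : IsGoodLabeling G lam) {a b c d : V} (ab : G.Adj a b) (bc : G.Adj b c)
    (ad : G.Adj a d) (dc : G.Adj d c) (hac : a ≠ c) (hbd : b ≠ d)
    (i1 : lam s(a, b) ≤ lam s(b, c)) (i2 : lam s(a, d) ≤ lam s(d, c)) : False := by
  have h := hg a c (Walk.cons ab (Walk.cons bc Walk.nil)) (Walk.cons ad (Walk.cons dc Walk.nil))
    (by simp [Walk.cons_isPath_iff, ab.ne, bc.ne, hac])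
    (by simp [Walk.cons_isPath_iff, ad.ne, dc.ne, hac])
    (by simpa [Increasing] using i1)
    (by simpa [Increasing] using i2)
  have h' := congrArg Walk.support h
  simp at h'
  exact hbd h'

theorem no23 (hg : IsGoodLabeling G lam) {x a b w m : V} (xa : G.Adj x a) (ab : G.Adj a b)
    (bw : G.Adj b w) (xm : G.Adj x m) (mw : G.Adj m w) (hxb : x ≠ b) (hxw : x ≠ w) (haw : a ≠ w)
    (i1 : lam s(x, a) ≤ lam s(a, b)) (i2 : lam s(a, b) ≤ lam s(b, w))
    (i3 : lam s(x, m) ≤ lam s(m, w)) : False := by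
  have h := hg x w (Walk.cons xa (Walk.cons ab (Walk.cons bw Walk.nil)))
    (Walk.cons xm (Walk.cons mw Walk.nil))
    (by simp [Walk.cons_isPath_iff, xa.ne, ab.ne, bw.ne, hxb, hxw, haw])
    (by simp [Walk.cons_isPath_iff, xm.ne, mw.ne, hxw])
    (by simp [Increasing, i1, i2, le_trans i1 i2])
    (by simpa [Increasing] using i3)
  have h' := congrArg Walk.length h
  simp at h'

theorem c4 (hg : IsGoodLabeling G lam) {a b c d : V} (ab : G.Adj a b) (bc : G.Adj b c)
    (cd : G.Adj c d) (da : G.Adj d a) (hac : a ≠ c) (hbd : b ≠ d) :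
    (lam s(b, c) < lam s(a, b) ∧ lam s(d, a) < lam s(a, b) ∧
      lam s(b, c) < lam s(c, d) ∧ lam s(d, a) < lam s(c, d)) ∨
    (lam s(a, b) < lam s(b, c) ∧ lam s(a, b) < lam s(d, a) ∧
      lam s(c, d) < lam s(b, c) ∧ lam s(c, d) < lam s(d, a)) := by
  have e1 : ¬ (lam s(a, b) ≤ lam s(b, c) ∧ lam s(d, a) ≤ lam s(c, d)) := by
    rintro ⟨i1, i2⟩
    exact no22 hg ab bc da.symm cd.symm hac hbd i1
      (by rw [Sym2.eq_swap, Sym2.eq_swap (a := d) (b := c)]; exact i2)
  have e2 : ¬ (lam s(b, c) ≤ lam s(a, b) ∧ lam s(c, d) ≤ lam s(d, a)) := by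
    rintro ⟨i1, i2⟩
    exact no22 hg bc.symm ab.symm cd da hac.symm hbd
      (by rw [Sym2.eq_swap, Sym2.eq_swap (a := b) (b := a)]; exact i1) i2
  have e3 : ¬ (lam s(a, b) ≤ lam s(d, a) ∧ lam s(b, c) ≤ lam s(c, d)) := by
    rintro ⟨i1, i2⟩
    exact no22 hg ab.symm da.symm bc cd hbd hac
      (by rw [Sym2.eq_swap, Sym2.eq_swap (a := a) (b := d)]; exact i1) i2
  have e4 : ¬ (lam s(d, a) ≤ lam s(a, b) ∧ lam s(c, d) ≤ lam s(b, c)) := by
    rintro ⟨i1, i2⟩
    exact no22 hg da ab cd.symm bc.symm hbd.symm hac i1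
      (by rw [Sym2.eq_swap, Sym2.eq_swap (a := c) (b := b)]; exact i2)
  rcases lt_trichotomy (lam s(a, b)) (lam s(b, c)) with h | h | h
  · right
    have h1 : lam s(c, d) < lam s(d, a) := by
      by_contra hc
      exact e1 ⟨h.le, not_lt.1 hc⟩
    have h2 : lam s(c, d) < lam s(b, c) := by
      by_contra hc
      have hc := not_lt.1 hc
      exact e3 ⟨by linarith, hc⟩
    have h3 : lam s(a, b) < lam s(d, a) := by
      by_contra hc
      exact e4 ⟨not_lt.1 hc, h2.le⟩
    exact ⟨h, h3, h2, h1⟩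
  · exfalso
    have h1 : lam s(c, d) < lam s(d, a) := by
      by_contra hc
      exact e1 ⟨h.le, not_lt.1 hc⟩
    exact e2 ⟨h.ge, h1.le⟩
  · left
    have h1 : lam s(d, a) < lam s(c, d) := by
      by_contra hc
      exact e2 ⟨h.le, not_lt.1 hc⟩
    have h2 : lam s(b, c) < lam s(c, d) := by
      by_contra hc
      have hc := not_lt.1 hc
      exact e4 ⟨by linarith, hc⟩
    have h3 : lam s(d, a) < lam s(a, b) := by
      by_contra hc
      exact e3 ⟨not_lt.1 hc, h2.le⟩
    exact ⟨h, h3, h2, h1⟩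

theorem between (hg : IsGoodLabeling G lam) {h x y z w p r : V}
    (xy : G.Adj x y) (yw : G.Adj y w) (wz : G.Adj w z) (zx : G.Adj z x)
    (hp : G.Adj h p) (pw : G.Adj p w) (wr : G.Adj w r) (rh : G.Adj r h) (hx : G.Adj h x)
    (nxw : x ≠ w) (nyz : y ≠ z) (nhw : h ≠ w) (npr : p ≠ r) (nxp : x ≠ p) (nxr : x ≠ r) :
    (lam s(h, p) < lam s(h, x) ∧ lam s(h, x) < lam s(h, r)) ∨
      (lam s(h, r) < lam s(h, x) ∧ lam s(h, x) < lam s(h, p)) := by
  have k1 := c4 hg xy yw wz zx nxw nyz
  have k2 := c4 hg hp pw wr rh nhw npr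
  have sw : ∀ a b : V, lam s(a, b) = lam s(b, a) := fun a b => by rw [Sym2.eq_swap]
  have up : ∃ m, G.Adj x m ∧ G.Adj m w ∧ lam s(x, m) ≤ lam s(m, w) := by
    rcases k1 with ⟨_, _, _, k⟩ | ⟨k, _, _, _⟩
    · exact ⟨z, zx.symm, wz.symm, by rw [sw x z, sw z w]; exact k.le⟩
    · exact ⟨y, xy, yw, k.le⟩
  have dn : ∃ m, G.Adj w m ∧ G.Adj m x ∧ lam s(w, m) ≤ lam s(m, x) := by
    rcases k1 with ⟨k, _, _, _⟩ | ⟨_, _, _, k⟩
    · exact ⟨y, yw.symm, xy.symm, by rw [sw w y, sw y x]; exact k.le⟩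
    · exact ⟨z, wz, zx, k.le⟩
  obtain ⟨m, xm, mw, im⟩ := up
  obtain ⟨m', wm, mx, im'⟩ := dn
  rcases k2 with ⟨k1, k2, k3, k4⟩ | ⟨k1, k2, k3, k4⟩
  · right
    rw [sw h r]
    constructor
    · by_contra hc
      have hc := not_lt.1 hc
      exact no23 hg hx.symm rh.symm wr.symm xm mw nxr nxw nhw
        (by rw [sw x h, sw h r]; exact hc) (by rw [sw h r, sw r w]; exact k4.le) im
    · by_contra hc
      have hc := not_lt.1 hc
      exact no23 hg pw.symm hp.symm hx wm mx nhw.symm nxw.symm nxp.symm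
        (by rw [sw w p, sw p h]; exact k1.le) (by rw [sw p h]; exact hc) im'
  · left
    rw [sw h r]
    constructor
    · by_contra hc
      have hc := not_lt.1 hc
      exact no23 hg hx.symm hp pw xm mw nxp nxw nhw
        (by rw [sw x h]; exact hc) k1.le im
    · by_contra hc
      have hc := not_lt.1 hc
      exact no23 hg wr rh hx wm mx nhw.symm nxw.symm nxr.symm
        k4.le hc im'

end Gadget

/-! ## Every good labeling of the graph has at least `N` labels -/

theorem mono_of_between (g : ℕ → ℝ) (N : ℕ)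
    (key : ∀ i, i + 2 < N → (g i < g (i + 1) ∧ g (i + 1) < g (i + 2)) ∨
      (g (i + 2) < g (i + 1) ∧ g (i + 1) < g i)) (h01 : g 0 < g 1) :
    ∀ i j, i < j → j < N → g i < g j := by
  have mono : ∀ i, i + 1 < N → g i < g (i + 1) := by
    intro i
    induction i with
    | zero => intro _; exact h01
    | succ n ih =>
      intro h1
      have h2 := ih (by omega)
      rcases key n (by omega) with h3 | h3
      · exact h3.2
      · exact absurd h2 (not_lt.2 h3.2.le)
  have mono2 : ∀ d i, i + d + 1 < N → g i < g (i + d + 1) := by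
    intro d
    induction d with
    | zero => intro i h1; exact mono i h1
    | succ n ih =>
      intro i h1
      exact lt_trans (ih i (by omega)) (mono (i + n + 1) (by omega))
  intro i j hij hj
  obtain ⟨d, rfl⟩ := Nat.exists_eq_add_of_lt hij
  exact mono2 d i hj

theorem inj_of_between (g : ℕ → ℝ) (N : ℕ) (hN : 3 ≤ N)
    (key : ∀ i, i + 2 < N → (g i < g (i + 1) ∧ g (i + 1) < g (i + 2)) ∨
      (g (i + 2) < g (i + 1) ∧ g (i + 1) < g i)) :
    ∀ i j, i < j → j < N → g i ≠ g j := by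
  intro i j hij hj
  rcases key 0 (by omega) with h | h
  · exact (mono_of_between g N key h.1 i j hij hj).ne
  · have := mono_of_between (fun i => -g i) N (by
      intro i hi
      rcases key i hi with h | h
      · right; constructor <;> linarith [h.1, h.2]
      · left; constructor <;> linarith [h.1, h.2]) (by linarith [h.2]) i j hij hj
    intro he
    simp [he] at this

theorem gr_adj (N : ℕ) (u v : Vt N) : (Gr N).Adj u v = adj N u v := rfl

theorem many (N : ℕ) (hN : 3 ≤ N) {lam : Sym2 (Vt N) → ℝ} (hg : IsGoodLabeling (Gr N) lam) :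
    (N : ℕ∞) ≤ (lam '' (Gr N).edgeSet).encard := by
  have key : ∀ (i : ℕ) (h1 : i + 2 < N),
      (lam s(.h, .x ⟨i, by omega⟩) < lam s(.h, .x ⟨i + 1, by omega⟩) ∧
        lam s(.h, .x ⟨i + 1, by omega⟩) < lam s(.h, .x ⟨i + 2, h1⟩)) ∨
      (lam s(.h, .x ⟨i + 2, h1⟩) < lam s(.h, .x ⟨i + 1, by omega⟩) ∧
        lam s(.h, .x ⟨i + 1, by omega⟩) < lam s(.h, .x ⟨i, by omega⟩)) := by
    intro i h1
    refine between (G := Gr N) (y := .y ⟨i + 1, by omega⟩) (z := .z ⟨i + 1, by omega⟩)
      (w := .w ⟨i + 1, by omega⟩) hg ?_ ?_ ?_ ?_ ?_ ?_ ?_ ?_ ?_ ?_ ?_ ?_ ?_ ?_ ?_ <;>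
      simp [gr_adj, adj]
  have inj : Function.Injective (fun i : Fin N => lam s(.h, .x i)) := by
    have h1 := inj_of_between (fun i => if h : i < N then lam s(.h, .x ⟨i, h⟩) else 0) N hN (by
      intro i hi
      have h2 : i + 1 < N := by omega
      have h3 : i < N := by omega
      simp only [hi, h2, h3, dif_pos]
      exact key i hi)
    intro i j hij
    rcases lt_trichotomy i.1 j.1 with h5 | h5 | h5
    · exact absurd (by simpa using hij) (h1 i.1 j.1 h5 j.2)
    · exact Fin.ext h5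
    · exact absurd (by simpa using hij.symm) (h1 j.1 i.1 h5 i.2)
  have hsub : Set.range (fun i : Fin N => lam s(.h, .x i)) ⊆ lam '' (Gr N).edgeSet := by
    rintro _ ⟨i, rfl⟩
    exact ⟨_, by simp [gr_adj, adj], rfl⟩
  calc (N : ℕ∞) = (Set.range (fun i : Fin N => lam s(.h, .x i))).encard := by
        rw [← Set.image_univ, inj.encard_image, Set.encard_univ]
        simp
    _ ≤ _ := Set.encard_le_encard hsub

/-! ## Treewidth -/

theorem pathGraph_isTree (n : ℕ) : (pathGraph (n + 1)).IsTree := by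
  rw [isTree_iff_connected_and_card]
  refine ⟨pathGraph_connected n, ?_⟩
  have e : Fin n ≃ (pathGraph (n + 1)).edgeSet := by
    refine Equiv.ofBijective (fun i => ⟨s(i.castSucc, i.succ), ?_⟩) ⟨?_, ?_⟩
    · rw [mem_edgeSet, pathGraph_adj]; left; simp
    · intro i j hij
      have h := congrArg Subtype.val hij
      simp only [Sym2.eq_iff, Fin.ext_iff, Fin.val_castSucc, Fin.val_succ] at h
      apply Fin.ext
      omega
    · rintro ⟨e, he⟩
      induction e using Sym2.ind with
      | _ a b =>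
        rw [mem_edgeSet, pathGraph_adj] at he
        rcases he with h | h
        · refine ⟨⟨a.1, by omega⟩, ?_⟩
          apply Subtype.ext
          simp only [Sym2.eq_iff, Fin.ext_iff, Fin.val_castSucc, Fin.val_succ]
          left
          exact ⟨trivial, h⟩
        · refine ⟨⟨b.1, by omega⟩, ?_⟩
          apply Subtype.ext
          simp only [Sym2.eq_iff, Fin.ext_iff, Fin.val_castSucc, Fin.val_succ]
          right
          exact ⟨trivial, h⟩
  rw [← Nat.card_congr e]
  simp

theorem star_connected {I : Type} (T : SimpleGraph I) (S : Set I) (c : I) (hc : c ∈ S)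
    (h : ∀ i ∈ S, i = c ∨ T.Adj c i) : (T.induce S).Connected := by
  rw [connected_iff_exists_forall_reachable]
  refine ⟨⟨c, hc⟩, ?_⟩
  rintro ⟨i, hi⟩
  rcases h i hi with rfl | h
  · exact Reachable.refl _
  · exact Adj.reachable (by simpa using h)

/-- The bags of the path decomposition. -/
def bag (N : ℕ) (i : Fin N) : Set (Vt N)
  | .h => True
  | .x j => j.1 ≤ i.1 + 1 ∧ i.1 ≤ j.1 + 1
  | .y j => j = i
  | .z j => j = i
  | .w j => j = i

theorem mem_h (N : ℕ) (i : Fin N) : (Vt.h ∈ bag N i) = True := rfl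
theorem mem_x (N : ℕ) (i j : Fin N) :
    (Vt.x j ∈ bag N i) = (j.1 ≤ i.1 + 1 ∧ i.1 ≤ j.1 + 1) := rfl
theorem mem_y (N : ℕ) (i j : Fin N) : (Vt.y j ∈ bag N i) = (j = i) := rfl
theorem mem_z (N : ℕ) (i j : Fin N) : (Vt.z j ∈ bag N i) = (j = i) := rfl
theorem mem_w (N : ℕ) (i j : Fin N) : (Vt.w j ∈ bag N i) = (j = i) := rfl

/-- The path decomposition. -/
def dec (n : ℕ) : TreeDecomp (Gr (n + 1)) (Fin (n + 1)) where
  tree := pathGraph (n + 1)
  isTree := pathGraph_isTree n
  bag := bag (n + 1)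
  mem_bag := by
    intro v
    rcases v with _ | j | j | j | j
    · exact ⟨0, trivial⟩
    · exact ⟨j, by show _ ∧ _; omega⟩
    · exact ⟨j, rfl⟩
    · exact ⟨j, rfl⟩
    · exact ⟨j, rfl⟩
  edge_bag := by
    intro u v h
    rw [gr_adj] at h
    rcases u with _ | i | i | i | i <;> rcases v with _ | j | j | j | j <;>
      simp only [adj] at h
    all_goals
      first
      | exact ⟨i, by simp only [mem_h, mem_x, mem_y, mem_z, mem_w, Fin.ext_iff, true_and,
          and_true]; omega⟩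
      | exact ⟨j, by simp only [mem_h, mem_x, mem_y, mem_z, mem_w, Fin.ext_iff, true_and,
          and_true]; omega⟩
  connected := by
    intro v
    rcases v with _ | j | j | j | j
    · have : {i | Vt.h ∈ bag (n + 1) i} = Set.univ := rfl
      rw [this]
      exact (induceUnivIso _).connected_iff.2 (pathGraph_connected n)
    · refine star_connected _ _ j (by simp only [Set.mem_ofPred_eq, mem_x]; omega) ?_
      intro i hi
      simp only [Set.mem_ofPred_eq, mem_x] at hi
      rw [pathGraph_adj, Fin.ext_iff]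
      omega
    all_goals
      refine star_connected _ _ j rfl ?_
      intro i hi
      exact Or.inl hi.symm

theorem bag_card (N : ℕ) (i : Fin N) : (bag N i).encard ≤ (6 + 1 : ℕ) := by
  have hsub : bag N i ⊆ ↑(({.h, .y i, .z i, .w i, .x i,
      .x ⟨i.1 - 1, by omega⟩, if h : i.1 + 1 < N then .x ⟨i.1 + 1, h⟩ else .h} :
      Finset (Vt N))) := by
    intro v hv
    rcases v with _ | j | j | j | j
    · simp
    · rw [mem_x] at hv
      have hj : j.1 = i.1 ∨ j.1 = i.1 - 1 ∨ j.1 = i.1 + 1 := by omega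
      rcases hj with hj | hj | hj
      · have : j = i := Fin.ext hj
        simp [this]
      · have : j = ⟨i.1 - 1, by omega⟩ := Fin.ext hj
        simp [this]
      · have h1 : i.1 + 1 < N := by have := j.2; omega
        have : j = ⟨i.1 + 1, h1⟩ := Fin.ext hj
        simp [this, h1]
    · rw [mem_y] at hv
      simp [hv]
    · rw [mem_z] at hv
      simp [hv]
    · rw [mem_w] at hv
      simp [hv]
  refine (Set.encard_le_encard hsub).trans ?_
  rw [Set.encard_coe_eq_coe_finsetCard]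
  exact_mod_cast (Finset.card_insert_le _ _).trans (Nat.succ_le_succ Finset.card_le_six)

theorem tw_le (n : ℕ) : treewidth (Gr (n + 1)) ≤ 6 :=
  Nat.sInf_le ⟨n + 1, dec n, fun i => bag_card (n + 1) i⟩

/-! ## Main theorem -/

/-- **Q1 has a negative answer.** There is no function `f` such that every good graph `G` is
`f (tw G)`-good; moreover, for some fixed `k ≤ 6` and every `c`, there is a good finite graph of
treewidth exactly `k` that is not `c`-good. -/
theorem result :
    (¬ ∃ f : ℕ → ℕ, ∀ (V : Type) [Fintype V] (G : SimpleGraph V),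
      GoodGraph G → CGood (f (treewidth G)) G) ∧
    (∃ k : ℕ, k ≤ 6 ∧ ∀ c : ℕ, ∃ (V : Type) (_ : Fintype V) (G : SimpleGraph V),
      GoodGraph G ∧ treewidth G = k ∧ ¬ CGood c G) := by
  have main : ∃ k : ℕ, k ≤ 6 ∧ ∀ c : ℕ, ∃ (V : Type) (_ : Fintype V) (G : SimpleGraph V),
      GoodGraph G ∧ treewidth G = k ∧ ¬ CGood c G := by
    by_contra hcon
    push Not at hcon
    choose! c hc using hcon
    let C := ∑ k ∈ Finset.range 7, c k
    have h1 : ¬ CGood (c (treewidth (Gr (C + 3)))) (Gr (C + 3)) := by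
      rintro ⟨lam, hg, hcard⟩
      have h2 := (many (C + 3) (by omega) hg).trans hcard
      have h3 : C + 3 ≤ c (treewidth (Gr (C + 3))) := by exact_mod_cast h2
      have h4 : c (treewidth (Gr (C + 3))) ≤ C :=
        Finset.single_le_sum (f := c) (fun _ _ => Nat.zero_le _)
          (Finset.mem_range.2 (Nat.lt_succ_of_le (tw_le (C + 2))))
      omega
    exact h1 (hc _ (tw_le (C + 2)) (Vt (C + 3)) inferInstance (Gr (C + 3)) ⟨_, good _⟩ rfl)
  refine ⟨?_, main⟩
  rintro ⟨f, hf⟩
  obtain ⟨k, _, hk⟩ := main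
  obtain ⟨V, _, G, hG, htw, hnot⟩ := hk (f k)
  apply hnot
  rw [← htw]
  exact hf V G hG

end Pool.Agent.Results.MP_67e79f_co.HubChain
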